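import Pool.Agent.Helper60.OWN.OccurringLetters

/-!
The 2n bound for D0L sequence equivalence, for words over an arbitrary alphabet.
-/

set_option autoImplicit false

namespace Pool.Agent.Results.MP_2bc838_lc.OccurringLetters

universe u

/-- Two D0L systems over the same alphabet `α` of any type (homomorphisms `h₁`, `h₂` of the free monoid of words,
letters may be erased, axioms `w₁`, `w₂`).  If `α` is finite with `n` letters then the sequences are equal if and
only if their first `2 n` terms are equal.  More generally, for every alphabet, also infinite, and every `n ≥ 1`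
such that at most `n` letters occur in the first `2 n` terms, equality of the first `2 n` terms gives equality of
all terms. -/
theorem result (α : Type u) (h₁ h₂ : FreeMonoid α →* FreeMonoid α) (w₁ w₂ : FreeMonoid α) :
    (∀ [Fintype α], (∀ k : ℕ, (h₁^[k]) w₁ = (h₂^[k]) w₂) ↔
      (∀ k < 2 * Fintype.card α, (h₁^[k]) w₁ = (h₂^[k]) w₂)) ∧
    (∀ n : ℕ, 1 ≤ n → {a : α | ∃ k < 2 * n, a ∈ ((h₁^[k]) w₁).toList}.encard ≤ n →
      (∀ k < 2 * n, (h₁^[k]) w₁ = (h₂^[k]) w₂) → ∀ k : ℕ, (h₁^[k]) w₁ = (h₂^[k]) w₂) :=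
  ⟨fun {_} => ⟨fun H k _ => H k, fun H => Pool.Agent.Helper60.OWN.finite_alphabet h₁ h₂ w₁ w₂ H⟩,
    fun n hn hL H => Pool.Agent.Helper60.OWN.occurring h₁ h₂ w₁ w₂ n hn hL H⟩

end Pool.Agent.Results.MP_2bc838_lc.OccurringLetters
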